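import Pool.Agent.H41.EigLow

/-!
# The dimension of the eigencompatibility variety
-/

open MvPolynomial

namespace Pool.Agent.Results.MP_72974f_ag.DimensionEC

open MP72974f H41.EigAlg

/-- the set whose closure is `EC_{n,d}`, in a chart -/
theorem chart_preimage {n d : ℕ} (hd : 1 ≤ d)
    (c : Fin d × Fin (numPoints n d) → Fin (n + 1)) :
    (chart c ⁻¹' {Z : SymProd n d | ∃ T : Tensor n d, ∀ k, IsReducedEigenscheme T k (Z k)} :
      Set ((Fin d × Fin (numPoints n d)) × Fin n → ℂ)) =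
      {u : (Fin d × Fin (numPoints n d)) × Fin n → ℂ | ∃ T : Tensor n d, Good T c u} := by
  apply Set.ext
  intro u
  exact exists_congr fun T => good_iff hd T c u

/-- `fermat` is not in the kernel of the minor map -/
theorem fermat_not_mem {n e : ℕ} (hn : 1 ≤ n) (he : 2 ≤ e) :
    fermat n (e + 1) ∉ minorKer n (e + 1) := by
  intro h
  obtain ⟨o, ho⟩ : ∃ o : Fin (n + 1), o ≠ 0 := by
    have : Nontrivial (Fin (n + 1)) := by
      rw [Fin.nontrivial_iff_two_le]; omega
    exact exists_ne 0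
  have h1 := congrArg (eval (fun x : Fin (n + 1) => if x = o then (3 : ℂ) else 1))
    (mem_minorKer.mp h 0 0 o)
  rw [eval_minor_fermat, map_zero] at h1
  have e1 : th (0 : Fin (n + 1)) = 2 := by rw [th, if_pos rfl]
  have e2 : th o = 1 := by rw [th, if_neg ho]
  rw [e1, e2, if_neg (Ne.symm ho), if_pos rfl, show e + 1 - 1 = (e - 1) + 1 by omega,
    pow_succ] at h1
  have h2 : (3 : ℂ) ^ (e - 1) = 2 := by
    simp only [one_pow, mul_one, one_mul] at h1
    linear_combination (1 / 3) * h1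
  have h3 : ((3 ^ (e - 1) : ℕ) : ℂ) = ((2 : ℕ) : ℂ) := by push_cast; exact h2
  rw [Nat.cast_inj] at h3
  have h4 : 3 ^ 1 ≤ 3 ^ (e - 1) := Nat.pow_le_pow_right (by norm_num) (by omega)
  omega

/-- **The dimension of the eigencompatibility variety** `EC_{n,d}`, for all `n ≥ 1`, `d ≥ 3`:
`binom(n+d, d) + (d-1)² binom(n+d-1, d) - 1` if `d` is odd, and one less if `d` is even. -/
theorem result (n d : ℕ) (hn : 1 ≤ n) (hd : 3 ≤ d) :
    topologicalKrullDim (EC n d) =
      ((Nat.choose (n + d) d + (d - 1) ^ 2 * Nat.choose (n + d - 1) d -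
        (if Even d then 2 else 1) : ℕ) : WithBot ℕ∞) := by
  obtain ⟨e, rfl⟩ : ∃ e, d = e + 1 := ⟨d - 1, by omega⟩
  have he : 2 ≤ e := by omega
  have hrank := finrank_range_minorMap (n := n) hn (show 1 ≤ e by omega)
  have hpos : 0 < Module.finrank ℂ (LinearMap.range (minorMap n (e + 1))) := by
    rw [Module.finrank_pos_iff_exists_ne_zero]
    refine ⟨⟨minorMap n (e + 1) (fermat n (e + 1)), ⟨_, rfl⟩⟩, fun h => ?_⟩
    exact fermat_not_mem hn he (congrArg Subtype.val h)
  obtain ⟨m, hm⟩ : ∃ m, Module.finrank ℂ (LinearMap.range (minorMap n (e + 1))) = m + 1 :=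
    ⟨_, (Nat.succ_pred_eq_of_pos hpos).symm⟩
  have hval : Nat.choose (n + (e + 1)) (e + 1) + (e + 1 - 1) ^ 2 *
      Nat.choose (n + (e + 1) - 1) (e + 1) - (if Even (e + 1) then 2 else 1) = m := by
    rw [hm] at hrank
    have h1 : (e + 1 - 1) ^ 2 * Nat.choose (n + (e + 1) - 1) (e + 1) =
        e * (e * Nat.choose (n + e) (e + 1)) := by
      rw [show e + 1 - 1 = e by omega, show n + (e + 1) - 1 = n + e by omega, sq, mul_assoc]
    rw [h1]
    split_ifs at hrank ⊢ <;> omega
  rw [hval]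
  obtain ⟨p⟩ := exists_param (n := n) (d := e + 1) m hm
  refine dim_closure_eq _ (m : WithBot ℕ∞) (fun c => ?_) ?_
  · rw [chart_preimage (by omega)]
    exact upper_bound p c
  · obtain ⟨c, u, hgood⟩ := exists_good_fermat (n := n) hd
    refine ⟨c, ?_⟩
    rw [chart_preimage (by omega)]
    exact lower_bound hn he p c u hgood

end Pool.Agent.Results.MP_72974f_ag.DimensionEC
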